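import Pool.Agent.H4.NS.Main
import Pool.Agent.H4.Loop.Struct
import Pool.Agent.H53.AL.Claim

set_option autoImplicit false

/-!
The closing tool: in a finite simple nonassociative automorphic loop an element of odd order of the
multiplication group which is inverted by some reflection `D r` and commutes with all `D q u D q` is
trivial.
-/

namespace ALoop

open Equiv

variable {Q : Type*} {G : Subgroup (Perm Q)} {L : Q → Perm Q} {J : Perm Q} {e : Q}

namespace AL

/-- a normal `p`-subgroup of `G` is trivial, if `L` is not associative -/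
theorem no_normal_p [Finite Q] (h : AL G L J e) (hna : ¬ Assoc L) {p : ℕ} [Fact p.Prime]
    {A : Subgroup (Perm Q)} (hAG : A ≤ G) (hA : Nm G A) (hAp : IsPGroup p A) : A = ⊥ := by
  classical
  obtain ⟨N, hNG, hN, hNne, hmin, ⟨a, ha, b, hb, hab⟩, hcent, -⟩ := structure_thm h hna
  have hX : Nm N (A ⊓ N) := by
    intro g hg m hm
    exact ⟨hA g (hNG hg) m hm.1, hN g (hNG hg) m hm.2⟩
  rcases hmin (A ⊓ N) inf_le_right hX with h1 | h1
  · -- `A` and `N` commute
    rw [eq_bot_iff]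
    intro x hx
    rw [Subgroup.mem_bot]
    refine hcent x (hAG hx) ?_
    intro n hn
    have h2 : x * n * x⁻¹ * n⁻¹ ∈ A ⊓ N := by
      refine ⟨?_, ?_⟩
      · have h3 := hA n (hNG hn) x⁻¹ (A.inv_mem hx)
        have h4 : x * n * x⁻¹ * n⁻¹ = x * (n * x⁻¹ * n⁻¹) := by group
        rw [h4]
        exact A.mul_mem hx h3
      · have h3 := hN x (hAG hx) n hn
        exact N.mul_mem h3 (N.inv_mem hn)
    rw [h1, Subgroup.mem_bot] at h2
    have h3 : x * n = n * x := by
      calc x * n = (x * n * x⁻¹ * n⁻¹) * (n * x) := by group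
        _ = n * x := by rw [h2, one_mul]
    exact h3
  · -- `N` would be a `p`-group
    exfalso
    have hNA : N ≤ A := by rw [← h1]; exact inf_le_left
    have hNp : IsPGroup p N := hAp.to_le hNA
    have hnt : Nontrivial N := (Subgroup.nontrivial_iff_ne_bot N).2 hNne
    have hc := hNp.center_nontrivial
    set Z := (Subgroup.center N).map N.subtype with hZ
    have hZN : Z ≤ N := Subgroup.map_subtype_le _
    have hZn : Nm N Z := by
      rintro g hg _ ⟨z, hz, rfl⟩
      refine ⟨z, hz, ?_⟩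
      have h2 := (Subgroup.mem_center_iff.1 hz) ⟨g, hg⟩
      have h3 : g * (z : Perm Q) = (z : Perm Q) * g := congrArg Subtype.val h2
      change (z : Perm Q) = g * (z : Perm Q) * g⁻¹
      rw [h3]; group
    rcases hmin Z hZN hZn with h2 | h2
    · rw [hZ, Subgroup.map_eq_bot_iff_of_injective _ N.subtype_injective] at h2
      have h3 := (Subgroup.nontrivial_iff_ne_bot _).1 hc
      exact h3 h2
    · apply hab
      have h3 : a ∈ Z := by rw [h2]; exact ha
      obtain ⟨z, hz, hza⟩ := h3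
      have h4 := (Subgroup.mem_center_iff.1 hz) ⟨b, hb⟩
      have h5 : b * (z : Perm Q) = (z : Perm Q) * b := congrArg Subtype.val h4
      have h6 : (z : Perm Q) = a := hza
      rw [h6] at h5
      exact h5.symm

/-- the subgroup generated by `G` and `J` -/
def MG (G : Subgroup (Perm Q)) (J : Perm Q) : Subgroup (Perm Q) := G ⊔ Subgroup.zpowers J

theorem MG_G : G ≤ MG G J := le_sup_left

theorem MG_J : J ∈ MG G J := (le_sup_right : Subgroup.zpowers J ≤ MG G J) (Subgroup.mem_zpowers J)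

theorem MG_D (h : AL G L J e) (q : Q) : D L J q ∈ MG G J := by
  have h1 := h.D_mul_mem q e
  rw [h.D_e] at h1
  have h2 : D L J q = D L J q * J * J := by rw [mul_assoc, h.JJ1, mul_one]
  rw [h2]
  exact (MG G J).mul_mem (MG_G h1) MG_J

/-- `G` and `J` permute the reflections -/
theorem MG_conj (h : AL G L J e) {g : Perm Q} (hg : g ∈ MG G J) :
    (∀ q, ∃ q', g * D L J q * g⁻¹ = D L J q') ∧ (∀ q, ∃ q', g⁻¹ * D L J q * g = D L J q') := by
  rw [MG, Subgroup.sup_eq_closure] at hg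
  induction hg using Subgroup.closure_induction with
  | mem x hx =>
    rcases hx with hx | hx
    · refine ⟨fun q => ⟨x q, h.D_conj hx q⟩, fun q => ⟨x⁻¹ q, ?_⟩⟩
      have := h.D_conj (G.inv_mem hx) q
      rwa [inv_inv] at this
    · obtain ⟨i, rfl⟩ := hx
      have hJ2 : J ^ (2 : ℤ) = 1 := by
        rw [zpow_two]; exact h.JJ1
      rcases Int.even_or_odd' i with ⟨k, hk | hk⟩
      · have h1 : J ^ i = 1 := by rw [hk, zpow_mul, hJ2, one_zpow]
        change (∀ q, ∃ q', J ^ i * D L J q * (J ^ i)⁻¹ = D L J q') ∧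
          (∀ q, ∃ q', (J ^ i)⁻¹ * D L J q * J ^ i = D L J q')
        rw [h1]
        exact ⟨fun q => ⟨q, by group⟩, fun q => ⟨q, by group⟩⟩
      · have h1 : J ^ i = J := by
          rw [hk, zpow_add, zpow_mul, hJ2, one_zpow, one_mul, zpow_one]
        change (∀ q, ∃ q', J ^ i * D L J q * (J ^ i)⁻¹ = D L J q') ∧
          (∀ q, ∃ q', (J ^ i)⁻¹ * D L J q * J ^ i = D L J q')
        rw [h1, h.Jinv]
        exact ⟨fun q => ⟨J q, h.D_J q⟩, fun q => ⟨J q, h.D_J q⟩⟩
  | one => exact ⟨fun q => ⟨q, by group⟩, fun q => ⟨q, by group⟩⟩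
  | mul a b _ _ iha ihb =>
    refine ⟨fun q => ?_, fun q => ?_⟩
    · obtain ⟨q1, h1⟩ := ihb.1 q
      obtain ⟨q2, h2⟩ := iha.1 q1
      refine ⟨q2, ?_⟩
      rw [← h2, ← h1]; group
    · obtain ⟨q1, h1⟩ := iha.2 q
      obtain ⟨q2, h2⟩ := ihb.2 q1
      refine ⟨q2, ?_⟩
      rw [← h2, ← h1]; group
  | inv a _ iha =>
    refine ⟨fun q => ?_, fun q => ?_⟩
    · obtain ⟨q1, h1⟩ := iha.2 q
      exact ⟨q1, by rw [← h1]; group⟩
    · obtain ⟨q1, h1⟩ := iha.1 q
      exact ⟨q1, by rw [← h1]; group⟩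

/-- the closing tool for elements of prime order -/
theorem close_prime [Finite Q] (h : AL G L J e) (hna : ¬ Assoc L) {p : ℕ} (hp : p.Prime)
    (hp2 : p ≠ 2) {u : Perm Q} (hu : u ∈ G) (hup : u ^ p = 1) {r : Q}
    (hinv : D L J r * u * D L J r = u⁻¹)
    (hcom : ∀ q, u * (D L J q * u * D L J q) = (D L J q * u * D L J q) * u) : u = 1 := by
  have : Fact p.Prime := ⟨hp⟩
  obtain ⟨N, hN, hNp, hbN⟩ := Pool.Agent.H53.AL.claim_normal (M := MG G J) p hp2
    {w : MG G J | ∃ q, (w : Perm Q) = D L J q} (by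
      rintro w ⟨q, hq⟩
      apply Subtype.ext
      change (w : Perm Q) * w = 1
      rw [hq]; exact h.D_sq q) (by
      rintro w ⟨q, hq⟩ g
      obtain ⟨q', hq'⟩ := (h.MG_conj g.2).1 q
      refine ⟨q', ?_⟩
      change (g : Perm Q) * w * (g : Perm Q)⁻¹ = _
      rw [hq, hq']) ⟨u, MG_G hu⟩ ⟨D L J r, h.MG_D r⟩ (Subtype.ext hup) ⟨r, rfl⟩
    (Subtype.ext hinv) (by
      rintro w ⟨q, hq⟩
      apply Subtype.ext
      change u * ((w : Perm Q) * u * w) = ((w : Perm Q) * u * w) * u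
      rw [hq]; exact hcom q)
  set A : Subgroup (Perm Q) := (N.map (MG G J).subtype) ⊓ G with hA
  have h1 : A = ⊥ := by
    apply h.no_normal_p hna (p := p) inf_le_right
    · rintro g hg _ ⟨⟨n, hn, rfl⟩, hnG⟩
      refine ⟨⟨⟨g, MG_G hg⟩ * n * (⟨g, MG_G hg⟩)⁻¹, hN.conj_mem n hn _, rfl⟩, ?_⟩
      exact G.mul_mem (G.mul_mem hg hnG) (G.inv_mem hg)
    · exact (hNp.map (MG G J).subtype).to_le inf_le_left
  have h2 : u ∈ A := ⟨⟨_, hbN, rfl⟩, hu⟩
  rw [h1, Subgroup.mem_bot] at h2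
  exact h2

/-- the closing tool -/
theorem close [Finite Q] (h : AL G L J e) (hna : ¬ Assoc L) {u : Perm Q} (hu : u ∈ G) {n : ℕ}
    (hn : Odd n) (hun : u ^ n = 1) {r : Q} (hinv : D L J r * u * D L J r = u⁻¹)
    (hcom : ∀ q, u * (D L J q * u * D L J q) = (D L J q * u * D L J q) * u) : u = 1 := by
  by_contra hd1
  have hpow : ∀ q j, D L J q * u ^ j * D L J q = (D L J q * u * D L J q) ^ j := by
    intro q j
    have h1 : (D L J q)⁻¹ = D L J q := inv_eq_of_mul_eq_one_left (h.D_sq q)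
    have h3 := conj_pow (i := j) (a := D L J q) (b := u)
    rw [h1] at h3
    exact h3.symm
  have h1 : orderOf u ≠ 1 := fun h2 => hd1 (orderOf_eq_one_iff.1 h2)
  obtain ⟨p, hp, hpd⟩ := Nat.exists_prime_and_dvd h1
  have hp2 : p ≠ 2 := by
    rintro rfl
    have h3 : 2 ∣ n := hpd.trans (orderOf_dvd_of_pow_eq_one hun)
    exact (Nat.not_even_iff_odd.2 hn) (even_iff_two_dvd.2 h3)
  have h0 : 0 < orderOf u := orderOf_pos u
  have h4 : (u ^ (orderOf u / p)) ^ p = 1 := by
    rw [← pow_mul, Nat.div_mul_cancel hpd, pow_orderOf_eq_one]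
  have h5 : u ^ (orderOf u / p) = 1 := by
    refine h.close_prime hna hp hp2 (G.pow_mem hu _) h4 (r := r) ?_ ?_
    · rw [hpow, hinv, inv_pow]
    · intro q
      rw [hpow]
      exact ((show Commute u (D L J q * u * D L J q) from hcom q).pow_pow _ _).eq
  have h6 : orderOf u ∣ orderOf u / p := orderOf_dvd_of_pow_eq_one h5
  have h7 : orderOf u / p < orderOf u := Nat.div_lt_self h0 hp.one_lt
  have h8 : 0 < orderOf u / p := Nat.div_pos (Nat.le_of_dvd h0 hpd) hp.pos
  exact absurd (Nat.le_of_dvd h8 h6) (by omega)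

end AL

end ALoop
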