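import Pool.Agent.H38.O2.K1c
import Pool.Agent.H38.O2.Close

set_option autoImplicit false

/-!
Commutative finite simple automorphic loops with `J ≠ 1` are associative (helpers 8, 98).
-/

namespace ALoop

open Equiv

variable {Q : Type*} {G : Subgroup (Perm Q)} {L : Q → Perm Q} {J : Perm Q} {e : Q}

namespace AL

/-- if `J` fixes only `e` then all products `D p * D q` have odd order -/
theorem odd_DD [Finite Q] (h : AL G L J e) (hfix : ∀ x, J x = x → x = e) (p q : Q) :
    ∃ n : ℕ, Odd n ∧ (D L J p * D L J q) ^ n = 1 := by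
  classical
  have hJJ := h.JJ1
  have key : ∀ r, ∃ n : ℕ, Odd n ∧ (D L J r * J) ^ n = 1 := by
    intro r
    refine ⟨orderOf (D L J r * J), ?_, pow_orderOf_eq_one _⟩
    by_contra hev
    rw [Nat.not_odd_iff_even] at hev
    obtain ⟨n, hn⟩ := hev
    obtain ⟨p, hp⟩ := h.pow_D r n
    set P := D L J r * J with hP
    have hDD := h.D_sq r
    have hJP : J * P * J = P⁻¹ := by
      have h1 : P⁻¹ = J * D L J r := by
        rw [hP, mul_inv_rev, h.Jinv, inv_eq_of_mul_eq_one_left hDD]
      rw [h1, hP]
      calc J * (D L J r * J) * J = J * D L J r * (J * J) := by group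
        _ = J * D L J r := by rw [hJJ, mul_one]
    have hJPn : J * P ^ n * J = P ^ n := by
      have h1 : J * P ^ n * J⁻¹ = (J * P * J⁻¹) ^ n := conj_pow.symm
      rw [h.Jinv, hJP] at h1
      rw [h1, inv_pow, inv_eq_iff_mul_eq_one, ← pow_add, ← hn, pow_orderOf_eq_one]
    have h2 : D L J (J p) = D L J p := by
      rw [← h.D_J, hp]
      calc J * (P ^ n * J) * J = (J * P ^ n * J) * J := by group
        _ = P ^ n * J := by rw [hJPn]
    have h3 := hfix p (h.D_inj h2)
    rw [h3, h.D_e] at hp
    have h4 : P ^ n = 1 := by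
      have h5 : 1 * J = P ^ n * J := by rw [one_mul]; exact hp
      exact (mul_right_cancel h5).symm
    have h6 : 0 < orderOf P := orderOf_pos P
    have h7 : orderOf P ∣ n := orderOf_dvd_of_pow_eq_one h4
    have h8 : 0 < n := by omega
    have h9 := Nat.le_of_dvd h8 h7
    omega
  obtain ⟨n, hn, hr⟩ := key ((L q)⁻¹ p)
  refine ⟨n, hn, ?_⟩
  have h1 : D L J p * D L J q = L q * (D L J ((L q)⁻¹ p) * J) * (L q)⁻¹ := by
    have h2 := h.D_conj (G.inv_mem (h.memL q)) p
    rw [inv_inv] at h2
    rw [← h2]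
    have h3 : D L J q = L q * J * (L q)⁻¹ := rfl
    rw [h3]; group
  rw [h1, conj_pow, hr]; group

theorem comm_fix (h : AL G L J e) (hc : ∀ q, J * L q * J = L (J q)) {x : Q} (hx : J x = x) :
    x = e := by
  have h1 := hc x
  rw [hx] at h1
  apply h.D_inj
  rw [h.D_e]
  unfold D
  have h2 : J * L x = L x * J := by
    calc J * L x = (J * L x * J) * J := by rw [mul_assoc (J * L x), h.JJ1, mul_one]
      _ = L x * J := by rw [h1]
  rw [← h2]; group

/-- `D b J = L_b L_(J b)⁻¹` -/
theorem comm_P (h : AL G L J e) (hc : ∀ q, J * L q * J = L (J q)) (b : Q) :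
    D L J b * J = L b * (L (J b))⁻¹ := by
  rw [← hc b]
  unfold D
  rw [mul_inv_rev, mul_inv_rev, h.Jinv]
  group

theorem comm_LJ (h : AL G L J e) (hc : ∀ q, J * L q * J = L (J q)) (b : Q) :
    L b * L (J b) = L (J b) * L b := by
  have h1 := h.comLR b
  rw [hc] at h1
  exact h1

theorem thc_Inn (h : AL G L J e) (hc : ∀ q, J * L q * J = L (J q)) (a b : Q) :
    thc L a b ∈ G ∧ thc L a b e = e := by
  refine ⟨?_, ?_⟩
  · exact G.mul_mem (G.mul_mem (G.mul_mem (G.inv_mem (h.memL _)) (G.inv_mem (h.memL _)))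
      (h.memL _)) (h.memL _)
  · unfold thc
    simp only [Perm.mul_apply]
    rw [h.Le, h.comm_mul hc a b, show (L b)⁻¹ (L b a) = a from (L b).symm_apply_apply a, h.cself]

/-- `L_a⁻¹ L_(J b) L_a = L_(J b) th` -/
theorem K1c' (h : AL G L J e) (hc : ∀ q, J * L q * J = L (J q)) (a b : Q) :
    (L a)⁻¹ * L (J b) * L a = L (J b) * thc L a b := by
  have hJJ := h.JJ1
  obtain ⟨hG, he⟩ := h.thc_Inn hc a b
  have hJ := h.comJ _ hG he
  have h1 := h.K1c hc a b
  have a1 : J * (L (J a))⁻¹ * J = (L a)⁻¹ := by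
    have h2 := hc (J a)
    rw [h.JJ] at h2
    rw [← h2, mul_inv_rev, mul_inv_rev, h.Jinv]; group
  have a2 : J * L (J a) * J = L a := by rw [hc, h.JJ]
  calc (L a)⁻¹ * L (J b) * L a = (J * (L (J a))⁻¹ * J) * (J * L b * J) * (J * L (J a) * J) := by
        rw [a1, a2, hc]
    _ = J * (L (J a))⁻¹ * (J * J) * L b * (J * J) * L (J a) * J := by group
    _ = J * ((L (J a))⁻¹ * L b * L (J a)) * J := by rw [hJJ]; group
    _ = J * (L b * thc L a b) * J := by rw [h1]
    _ = J * L b * (thc L a b * J) := by group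
    _ = (J * L b * J) * thc L a b := by rw [hJ]; group
    _ = L (J b) * thc L a b := by rw [hc]

theorem comm_th_fix [Finite Q] (h : AL G L J e) (hna : ¬ Assoc L)
    (hc : ∀ q, J * L q * J = L (J q)) (a b : Q) : thc L a b b = b := by
  have hJJ := h.JJ1
  obtain ⟨hG, he⟩ := h.thc_Inn hc a b
  have hf1 : (L a)⁻¹ * L b * L a = L b * (thc L a b)⁻¹ := by unfold thc; group
  have hf2 := h.K1c' hc a b
  obtain ⟨th, hth⟩ : ∃ th, th = thc L a b := ⟨_, rfl⟩
  rw [← hth] at hG he hf1 hf2 ⊢
  have hGi : th⁻¹ ∈ G := G.inv_mem hG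
  have hei : th⁻¹ e = e := by rw [Perm.inv_eq_iff_eq, he]
  obtain ⟨c, hcd⟩ : ∃ c, c = th⁻¹ b := ⟨_, rfl⟩
  have hthc : th c = b := by rw [hcd]; exact th.apply_symm_apply b
  have hbb := h.comm_LJ hc b
  -- (2)
  have e1 : L b * L (J c) = L (J b) * L (th b) := by
    have h1 : ((L a)⁻¹ * L b * L a) * ((L a)⁻¹ * L (J b) * L a) =
        ((L a)⁻¹ * L (J b) * L a) * ((L a)⁻¹ * L b * L a) := by
      calc ((L a)⁻¹ * L b * L a) * ((L a)⁻¹ * L (J b) * L a) =
          (L a)⁻¹ * (L b * L (J b)) * L a := by group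
        _ = (L a)⁻¹ * (L (J b) * L b) * L a := by rw [hbb]
        _ = ((L a)⁻¹ * L (J b) * L a) * ((L a)⁻¹ * L b * L a) := by group
    rw [hf1, hf2] at h1
    have h2 := h.equi th hG he b
    have h3 := h.equi th⁻¹ hGi hei (J b)
    rw [inv_inv] at h3
    have h4 : th⁻¹ (J b) = J c := by
      have h5 := congrArg (fun f : Perm Q => f b) (h.comJ th⁻¹ hGi hei)
      simp only [Perm.mul_apply] at h5
      rw [h5, hcd]
    rw [h4] at h3
    calc L b * L (J c) = (L b * th⁻¹) * (L (J b) * th) := by rw [← h3]; group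
      _ = (L (J b) * th) * (L b * th⁻¹) := h1
      _ = L (J b) * L (th b) := by rw [← h2]; group
  have hP : ∀ q, L (J q) = J * D L J q * L q := by
    intro q
    have h1 := h.comm_P hc q
    have h2 : D L J q * D L J q = 1 := h.D_sq q
    have h3 : (D L J q * J)⁻¹ = J * D L J q := by
      rw [mul_inv_rev, h.Jinv, inv_eq_of_mul_eq_one_left h2]
    rw [← h3, h1]; group
  have hPb : (D L J b * J) * L b = L b * (D L J b * J) := by
    rw [h.comm_P hc b]
    calc L b * (L (J b))⁻¹ * L b = L b * (L (J b))⁻¹ * (L b * L (J b)) * (L (J b))⁻¹ := by group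
      _ = L b * (L (J b))⁻¹ * (L (J b) * L b) * (L (J b))⁻¹ := by rw [hbb]
      _ = L b * (L b * (L (J b))⁻¹) := by group
  -- (E2)
  have e2 : L (th b) = (D L J b * D L J c) * L c := by
    rw [hP c, hP b] at e1
    have h1 : D L J b * D L J b = 1 := h.D_sq b
    calc L (th b) = (L b)⁻¹ * (D L J b * D L J b) * L b * L (th b) := by rw [h1]; group
      _ = (L b)⁻¹ * (D L J b * (J * J) * D L J b) * L b * L (th b) := by rw [hJJ, mul_one]
      _ = (L b)⁻¹ * (D L J b * J) * (J * D L J b * L b * L (th b)) := by group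
      _ = (L b)⁻¹ * (D L J b * J) * (L b * (J * D L J c * L c)) := by rw [← e1]
      _ = (L b)⁻¹ * ((D L J b * J) * L b) * (J * D L J c * L c) := by group
      _ = (L b)⁻¹ * (L b * (D L J b * J)) * (J * D L J c * L c) := by rw [hPb]
      _ = D L J b * (J * J) * D L J c * L c := by group
      _ = (D L J b * D L J c) * L c := by rw [hJJ, mul_one]
  obtain ⟨del, hdel⟩ : ∃ del, del = D L J b * D L J c := ⟨_, rfl⟩
  rw [← hdel] at e2
  have hdelG : del ∈ G := by rw [hdel]; exact h.D_mul_mem b c
  have hthb : th b = del c := by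
    have h1 := congrArg (fun f : Perm Q => f e) e2
    simp only [Perm.mul_apply, h.Le] at h1
    exact h1
  have hDth : D L J (th b) = D L J b * D L J c * D L J b := by
    rw [hthb, ← h.D_conj hdelG, hdel, mul_inv_rev,
      inv_eq_of_mul_eq_one_left (h.D_sq b), inv_eq_of_mul_eq_one_left (h.D_sq c)]
    calc D L J b * D L J c * D L J c * (D L J c * D L J b) =
        D L J b * (D L J c * D L J c) * D L J c * D L J b := by group
      _ = D L J b * D L J c * D L J b := by rw [h.D_sq c]; group
  have hdel2 : del = D L J (th b) * D L J b := by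
    rw [hDth, hdel, mul_assoc (D L J b * D L J c), h.D_sq b, mul_one]
  have hthdel : th * del * th⁻¹ = del := by
    calc th * del * th⁻¹ = (th * D L J b * th⁻¹) * (th * D L J c * th⁻¹) := by rw [hdel]; group
      _ = D L J (th b) * D L J (th c) := by rw [h.D_conj hG, h.D_conj hG]
      _ = del := by rw [hthc, ← hdel2]
  have hDb : D L J (th b) = del * D L J b := by
    rw [hdel2, mul_assoc, h.D_sq b, mul_one]
  have e3 : L (th (th b)) = del * L b := by
    have h1 := h.equi th hG he (th b)
    rw [← h1, e2]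
    calc th * (del * L c) * th⁻¹ = (th * del * th⁻¹) * (th * L c * th⁻¹) := by group
      _ = del * L b := by rw [hthdel, h.equi th hG he c, hthc]
  have e4 : L (th (th (th (th b)))) = del * del * L b := by
    have h1 := h.equi th hG he (th (th (th b)))
    have h2 := h.equi th hG he (th (th b))
    rw [← h1, ← h2, e3]
    calc th * (th * (del * L b) * th⁻¹) * th⁻¹ =
        (th * (th * del * th⁻¹) * th⁻¹) * (th * (th * L b * th⁻¹) * th⁻¹) := by group
      _ = del * (del * L b) := by
        rw [hthdel, hthdel, h.equi th hG he b, h.equi th hG he (th b), e3]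
      _ = del * del * L b := by group
  have hD2 : D L J (th (th b)) = del * del * D L J b := by
    rw [← h.D_conj hG, hDb]
    calc th * (del * D L J b) * th⁻¹ = (th * del * th⁻¹) * (th * D L J b * th⁻¹) := by group
      _ = del * (del * D L J b) := by rw [hthdel, h.D_conj hG, hDb]
      _ = del * del * D L J b := by group
  have hD4 : D L J (th (th (th (th b)))) = del * del * del * del * D L J b := by
    have h1 : D L J (th (th (th b))) = del * del * del * D L J b := by
      rw [← h.D_conj hG, hD2]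
      calc th * (del * del * D L J b) * th⁻¹ =
          (th * del * th⁻¹) * (th * del * th⁻¹) * (th * D L J b * th⁻¹) := by group
        _ = del * del * (del * D L J b) := by rw [hthdel, h.D_conj hG, hDb]
        _ = del * del * del * D L J b := by group
    rw [← h.D_conj hG, h1]
    calc th * (del * del * del * D L J b) * th⁻¹ =
        (th * del * th⁻¹) * (th * del * th⁻¹) * (th * del * th⁻¹) * (th * D L J b * th⁻¹) := by
          group
      _ = del * del * del * (del * D L J b) := by rw [hthdel, h.D_conj hG, hDb]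
      _ = del * del * del * del * D L J b := by group
  -- (4)
  have hcomd : ∀ q, del * (D L J q * del * D L J q) = (D L J q * del * D L J q) * del := by
    intro q
    obtain ⟨y, hy⟩ : ∃ y, y = (L b)⁻¹ q := ⟨_, rfl⟩
    have hLby : L b y = q := by rw [hy]; exact (L b).apply_symm_apply q
    have hLyb : L y b = q := by rw [h.comm_mul hc, hLby]
    obtain ⟨F, hF⟩ : ∃ F, F = D L J q := ⟨_, rfl⟩
    have hFF : F * F = 1 := by rw [hF]; exact h.D_sq q
    have hFc : F = L y * D L J b * (L y)⁻¹ := by
      rw [h.D_conj (h.memL y), hLyb, hF]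
    have k1 : L y * (del * del) * (L y)⁻¹ = del * (F * del⁻¹ * F) := by
      have h1 : L y (th (th b)) = del q := by
        rw [h.comm_mul hc, e3, Perm.mul_apply, hLby]
      have h2 := congrArg (D L J) h1
      rw [← h.D_conj (h.memL y), hD2, ← h.D_conj hdelG, ← hF] at h2
      calc L y * (del * del) * (L y)⁻¹ =
          L y * (del * del * D L J b) * (L y)⁻¹ * (L y * (D L J b)⁻¹ * (L y)⁻¹) := by group
        _ = del * F * del⁻¹ * (L y * D L J b * (L y)⁻¹) := by
          rw [h2, inv_eq_of_mul_eq_one_left (h.D_sq b)]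
        _ = del * (F * del⁻¹ * F) := by rw [← hFc]; group
    have k2 : L y * (del * del * del * del) * (L y)⁻¹ = del * del * (F * (del⁻¹ * del⁻¹) * F) := by
      have h1 : L y (th (th (th (th b)))) = (del * del) q := by
        rw [h.comm_mul hc, e4, Perm.mul_apply, hLby]
      have h2 := congrArg (D L J) h1
      rw [← h.D_conj (h.memL y), hD4, ← h.D_conj (G.mul_mem hdelG hdelG), ← hF] at h2
      calc L y * (del * del * del * del) * (L y)⁻¹ =
          L y * (del * del * del * del * D L J b) * (L y)⁻¹ *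
            (L y * (D L J b)⁻¹ * (L y)⁻¹) := by group
        _ = del * del * F * (del * del)⁻¹ * (L y * D L J b * (L y)⁻¹) := by
          rw [h2, inv_eq_of_mul_eq_one_left (h.D_sq b)]
        _ = del * del * (F * (del⁻¹ * del⁻¹) * F) := by rw [← hFc]; group
    obtain ⟨v, hv⟩ : ∃ v, v = F * del⁻¹ * F := ⟨_, rfl⟩
    have hvv : F * (del⁻¹ * del⁻¹) * F = v * v := by
      rw [hv]
      calc F * (del⁻¹ * del⁻¹) * F = F * del⁻¹ * 1 * del⁻¹ * F := by group
        _ = F * del⁻¹ * (F * F) * del⁻¹ * F := by rw [hFF]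
        _ = F * del⁻¹ * F * (F * del⁻¹ * F) := by group
    rw [hvv] at k2
    rw [← hv] at k1
    have k3 : del * v * (del * v) = del * del * (v * v) := by
      rw [← k1, ← k2]; group
    have k4 : v * del = del * v := by
      calc v * del = del⁻¹ * (del * v * (del * v)) * v⁻¹ := by group
        _ = del⁻¹ * (del * del * (v * v)) * v⁻¹ := by rw [k3]
        _ = del * v := by group
    have k5 : F * del * F = v⁻¹ := by
      rw [hv, mul_inv_rev, mul_inv_rev, inv_inv, inv_eq_of_mul_eq_one_left hFF]; group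
    rw [← hF, k5]
    calc del * v⁻¹ = v⁻¹ * (v * del) * v⁻¹ := by group
      _ = v⁻¹ * (del * v) * v⁻¹ := by rw [k4]
      _ = v⁻¹ * del := by group
  obtain ⟨n, hn, hnd⟩ := h.odd_DD (fun x hx => h.comm_fix hc hx) (th b) b
  rw [← hdel2] at hnd
  have hd1 : del = 1 := by
    refine h.close hna hdelG hn hnd (r := b) ?_ hcomd
    rw [hdel2, mul_inv_rev, inv_eq_of_mul_eq_one_left (h.D_sq b),
      inv_eq_of_mul_eq_one_left (h.D_sq (th b))]
    calc D L J b * (D L J (th b) * D L J b) * D L J b =
        D L J b * D L J (th b) * (D L J b * D L J b) := by group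
      _ = D L J b * D L J (th b) := by rw [h.D_sq b, mul_one]
  rw [hd1, one_mul] at hDb
  exact h.D_inj hDb

/-- commutative case -/
theorem comm_assoc [Finite Q] (h : AL G L J e) (hc : ∀ q, J * L q * J = L (J q)) : Assoc L := by
  by_contra hna
  have hJJ := h.JJ1
  have hall : ∀ b, b = e := by
    intro b
    obtain ⟨P, hPd⟩ : ∃ P, P = D L J b * J := ⟨_, rfl⟩
    have hPL : P = L b * (L (J b))⁻¹ := by rw [hPd]; exact h.comm_P hc b
    have hPG : P ∈ G := by rw [hPL]; exact G.mul_mem (h.memL _) (G.inv_mem (h.memL _))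
    have hbb := h.comm_LJ hc b
    have hDD := h.D_sq b
    have hPi : P⁻¹ = J * D L J b := by
      rw [hPd, mul_inv_rev, h.Jinv, inv_eq_of_mul_eq_one_left hDD]
    have hJP : J * P * J = P⁻¹ := by
      rw [hPi, hPd]
      calc J * (D L J b * J) * J = J * D L J b * (J * J) := by group
        _ = J * D L J b := by rw [hJJ, mul_one]
    have hcomP : ∀ q, P * (D L J q * P * D L J q) = (D L J q * P * D L J q) * P := by
      intro a
      obtain ⟨hG, he⟩ := h.thc_Inn hc a b
      have hfb := h.comm_th_fix hna hc a b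
      have hf1 : (L a)⁻¹ * L b * L a = L b * (thc L a b)⁻¹ := by unfold thc; group
      have hf2 := h.K1c' hc a b
      have hJth := h.comJ _ hG he
      obtain ⟨th, hth⟩ : ∃ th, th = thc L a b := ⟨_, rfl⟩
      rw [← hth] at hG he hf1 hf2 hfb hJth
      have c1 : th * L b = L b * th := h.comL hG he hfb
      have c2 : th * L (J b) = L (J b) * th := h.comL hG he (h.fixJ' hG he hfb)
      have cP : Commute th P := by
        rw [hPL]
        exact (show Commute th (L b) from c1).mul_right
          (show Commute th (L (J b)) from c2).inv_right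
      obtain ⟨t2, ht2⟩ : ∃ t2, t2 = th⁻¹ * th⁻¹ := ⟨_, rfl⟩
      have ct2 : Commute t2 P := by rw [ht2]; exact cP.inv_left.mul_left cP.inv_left
      have ctJ : Commute t2 J := by
        rw [ht2]
        exact (show Commute th J from hJth).inv_left.mul_left
          (show Commute th J from hJth).inv_left
      have e1 : (L a)⁻¹ * P * L a = t2 * P := by
        have c2' : th * (L (J b))⁻¹ = (L (J b))⁻¹ * th :=
          ((show Commute th (L (J b)) from c2).inv_right).eq
        have h1 : (L a)⁻¹ * P * L a = ((L a)⁻¹ * L b * L a) * ((L a)⁻¹ * L (J b) * L a)⁻¹ := by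
          rw [hPL]; group
        rw [h1, hf1, hf2, mul_inv_rev]
        have c3 : Commute (L b) t2 := by
          rw [ht2]
          exact (show Commute (L b) th from c1.symm).inv_right.mul_right
            (show Commute (L b) th from c1.symm).inv_right
        calc L b * th⁻¹ * (th⁻¹ * (L (J b))⁻¹) = L b * t2 * (L (J b))⁻¹ := by rw [ht2]; group
          _ = t2 * L b * (L (J b))⁻¹ := by rw [c3.eq]
          _ = t2 * P := by rw [hPL]; group
      have e2 : D L J a * P * D L J a = L a * (t2 * P⁻¹) * (L a)⁻¹ := by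
        have h1 : D L J a * P * D L J a = L a * (J * ((L a)⁻¹ * P * L a) * J) * (L a)⁻¹ := by
          unfold D; group
        have h2 : J * (t2 * P) * J = t2 * P⁻¹ := by
          calc J * (t2 * P) * J = (J * t2) * P * J := by group
            _ = (t2 * J) * P * J := by rw [ctJ.eq]
            _ = t2 * (J * P * J) := by group
            _ = t2 * P⁻¹ := by rw [hJP]
        rw [h1, e1, h2]
      have e3 : P = L a * (t2 * P) * (L a)⁻¹ := by rw [← e1]; group
      have c4 : Commute (t2 * P) (t2 * P⁻¹) := by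
        refine Commute.mul_left ?_ ?_
        · exact (Commute.refl t2).mul_right ct2.inv_right
        · exact ct2.symm.mul_right (Commute.refl P).inv_right
      rw [e2]
      calc P * (L a * (t2 * P⁻¹) * (L a)⁻¹) =
          (L a * (t2 * P) * (L a)⁻¹) * (L a * (t2 * P⁻¹) * (L a)⁻¹) := by rw [← e3]
        _ = L a * ((t2 * P) * (t2 * P⁻¹)) * (L a)⁻¹ := by group
        _ = L a * ((t2 * P⁻¹) * (t2 * P)) * (L a)⁻¹ := by rw [c4.eq]
        _ = (L a * (t2 * P⁻¹) * (L a)⁻¹) * (L a * (t2 * P) * (L a)⁻¹) := by group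
        _ = (L a * (t2 * P⁻¹) * (L a)⁻¹) * P := by rw [← e3]
    obtain ⟨n, hn, hnd⟩ := h.odd_DD (fun x hx => h.comm_fix hc hx) b e
    rw [h.D_e, ← hPd] at hnd
    have hP1 : P = 1 := by
      refine h.close hna hPG hn hnd (r := e) ?_ hcomP
      rw [h.D_e, hJP]
    apply h.D_inj
    rw [h.D_e]
    calc D L J b = D L J b * (J * J) := by rw [hJJ, mul_one]
      _ = P * J := by rw [hPd]; group
      _ = J := by rw [hP1, one_mul]
  apply h.Jne
  ext x
  rw [hall (J x), Perm.one_apply, hall x]

end AL

end ALoop
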