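import Pool.Agent.H4.FD.Conj

set_option autoImplicit false

/-!
Commutative automorphic loops with inversion `J`: the identity
`L_b th = L_{J a}⁻¹ L_b L_{J a}`, `th = L_a⁻¹ L_b⁻¹ L_a L_b` (helpers 8, 98, notes 6800, 6808).
-/

namespace ALoop

open Equiv

variable {Q : Type*} {G : Subgroup (Perm Q)} {L : Q → Perm Q} {J : Perm Q} {e : Q}

/-- the conjugate of `L x J` which exchanges `a` and `b` -/
def Mm (L : Q → Perm Q) (J : Perm Q) (a b : Q) : Perm Q :=
  L a * (L ((L a)⁻¹ b) * J) * (L a)⁻¹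

/-- the commutator `L_a⁻¹ L_b⁻¹ L_a L_b` -/
def thc (L : Q → Perm Q) (a b : Q) : Perm Q := (L a)⁻¹ * (L b)⁻¹ * L a * L b

namespace AL

theorem cinv (h : AL G L J e) (a : Q) : (L a)⁻¹ e = J a := by
  rw [Perm.inv_eq_iff_eq, h.LJ]

theorem cself (h : AL G L J e) (a : Q) : (L a)⁻¹ a = e := by
  rw [Perm.inv_eq_iff_eq, h.Le]

theorem comm_mul (h : AL G L J e) (hc : ∀ q, J * L q * J = L (J q)) (x y : Q) :
    L x y = L y x := by
  have h1 := h.R_apply x y
  rw [hc, h.JJ] at h1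
  exact h1.symm

theorem base_conj (h : AL G L J e) (hc : ∀ q, J * L q * J = L (J q)) {g : Perm Q}
    (hg : g ∈ G ∨ g * J ∈ G) (hge : g e = e) (x : Q) : g * (L x * J) * g⁻¹ = L (g x) * J := by
  have key : ∀ k ∈ G, k e = e → ∀ y, k * (L y * J) * k⁻¹ = L (k y) * J := by
    intro k hk hke y
    have h1 := h.equi k hk hke y
    have h2 := h.comJ k hk hke
    calc k * (L y * J) * k⁻¹ = (k * L y * k⁻¹) * (k * J) * k⁻¹ := by group
      _ = L (k y) * (J * k) * k⁻¹ := by rw [h1, h2]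
      _ = L (k y) * J := by group
  rcases hg with hg | hg
  · exact key g hg hge x
  · have hJJ := h.JJ1
    have h1 : (g * J) e = e := by rw [Perm.mul_apply, h.Je, hge]
    have h2 := key (g * J) hg h1 (J x)
    have h3 : (g * J) (J x) = g x := by rw [Perm.mul_apply, h.JJ]
    rw [h3, ← hc] at h2
    rw [← h2]
    have h4 : (g * J)⁻¹ = J * g⁻¹ := by rw [mul_inv_rev, h.Jinv]
    rw [h4]
    calc g * (L x * J) * g⁻¹ = g * 1 * L x * J * 1 * g⁻¹ := by group
      _ = g * (J * J) * L x * J * (J * J) * g⁻¹ := by rw [hJJ]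
      _ = g * J * (J * L x * J * J) * (J * g⁻¹) := by group

theorem Mm_conj (h : AL G L J e) (hc : ∀ q, J * L q * J = L (J q)) {g : Perm Q}
    (hg : g ∈ G ∨ g * J ∈ G) (a b : Q) : g * Mm L J a b * g⁻¹ = Mm L J (g a) (g b) := by
  have hJJ := h.JJ1
  set k := (L (g a))⁻¹ * g * L a with hk
  have hkG : k ∈ G ∨ k * J ∈ G := by
    rcases hg with hg | hg
    · left
      exact G.mul_mem (G.mul_mem (G.inv_mem (h.memL _)) hg) (h.memL _)
    · right
      have h1 : k * J = (L (g a))⁻¹ * (g * J) * (J * L a * J) := by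
        rw [hk]
        calc (L (g a))⁻¹ * g * L a * J = (L (g a))⁻¹ * g * 1 * L a * J := by group
          _ = (L (g a))⁻¹ * g * (J * J) * L a * J := by rw [hJJ]
          _ = (L (g a))⁻¹ * (g * J) * (J * L a * J) := by group
      rw [h1]
      exact G.mul_mem (G.mul_mem (G.inv_mem (h.memL _)) hg) (h.JG _ (h.memL _))
  have hke : k e = e := by
    rw [hk, Perm.mul_apply, Perm.mul_apply, h.Le, h.cself]
  have hkx : k ((L a)⁻¹ b) = (L (g a))⁻¹ (g b) := by
    rw [hk, Perm.mul_apply, Perm.mul_apply]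
    rw [show L a ((L a)⁻¹ b) = b from (L a).apply_symm_apply b]
  have h1 := h.base_conj hc hkG hke ((L a)⁻¹ b)
  rw [hkx] at h1
  unfold Mm
  rw [← h1, hk]
  group

theorem Mm_a (h : AL G L J e) (a b : Q) : Mm L J a b a = b := by
  unfold Mm
  simp only [Perm.mul_apply]
  rw [h.cself, h.Je, h.Le]
  exact (L a).apply_symm_apply b

theorem Mm_b (h : AL G L J e) (a b : Q) : Mm L J a b b = a := by
  unfold Mm
  simp only [Perm.mul_apply]
  rw [h.LJ, h.Le]

theorem Mm_e (h : AL G L J e) (hc : ∀ q, J * L q * J = L (J q)) (a b : Q) :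
    Mm L J a b e = L a b := by
  unfold Mm
  simp only [Perm.mul_apply]
  rw [h.cinv, h.JJ, h.comm_mul hc ((L a)⁻¹ b) a]
  rw [show L a ((L a)⁻¹ b) = b from (L a).apply_symm_apply b]

theorem Mm_J (h : AL G L J e) (a b : Q) : Mm L J a b * J ∈ G := by
  unfold Mm
  have h1 : L a * (L ((L a)⁻¹ b) * J) * (L a)⁻¹ * J =
      L a * L ((L a)⁻¹ b) * (J * (L a)⁻¹ * J) := by group
  rw [h1]
  exact G.mul_mem (G.mul_mem (h.memL _) (h.memL _)) (h.JG _ (G.inv_mem (h.memL _)))

theorem Mm_symm (h : AL G L J e) (hc : ∀ q, J * L q * J = L (J q)) (a b : Q) :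
    Mm L J a b = Mm L J b a := by
  have h1 := h.Mm_conj hc (g := Mm L J a b) (Or.inr (h.Mm_J a b)) a b
  rw [h.Mm_a, h.Mm_b] at h1
  rw [← h1]; group

/-- `Mm a b = L a L b J n` with `n` inner, fixing `b` -/
theorem Mm_n (h : AL G L J e) (hc : ∀ q, J * L q * J = L (J q)) (a b : Q) :
    ∃ n ∈ G, n e = e ∧ n b = b ∧ Mm L J a b = L a * L b * J * n := by
  have hJJ := h.JJ1
  refine ⟨J * (L b)⁻¹ * (L a)⁻¹ * Mm L J a b, ?_, ?_, ?_, ?_⟩
  · have h1 : J * (L b)⁻¹ * (L a)⁻¹ * Mm L J a b =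
        J * ((L b)⁻¹ * (L a)⁻¹ * (Mm L J a b * J)) * J := by
      calc J * (L b)⁻¹ * (L a)⁻¹ * Mm L J a b = J * (L b)⁻¹ * (L a)⁻¹ * Mm L J a b * 1 := by group
        _ = J * (L b)⁻¹ * (L a)⁻¹ * Mm L J a b * (J * J) := by rw [hJJ]
        _ = J * ((L b)⁻¹ * (L a)⁻¹ * (Mm L J a b * J)) * J := by group
    rw [h1]
    exact h.JG _ (G.mul_mem (G.mul_mem (G.inv_mem (h.memL _)) (G.inv_mem (h.memL _)))
      (h.Mm_J a b))
  · simp only [Perm.mul_apply]
    rw [h.Mm_e hc]
    rw [show (L a)⁻¹ (L a b) = b from (L a).symm_apply_apply b, h.cself, h.Je]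
  · simp only [Perm.mul_apply]
    rw [h.Mm_b, h.cself, h.cinv, h.JJ]
  · calc Mm L J a b = L a * L b * 1 * (L b)⁻¹ * (L a)⁻¹ * Mm L J a b := by group
      _ = L a * L b * (J * J) * (L b)⁻¹ * (L a)⁻¹ * Mm L J a b := by rw [hJJ]
      _ = L a * L b * J * (J * (L b)⁻¹ * (L a)⁻¹ * Mm L J a b) := by group

theorem fixJ' (h : AL G L J e) {g : Perm Q} (hg : g ∈ G) (hge : g e = e) {b : Q} (hb : g b = b) :
    g (J b) = J b := by
  have h1 := congrArg (fun f : Perm Q => f b) (h.comJ g hg hge)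
  simp only [Perm.mul_apply] at h1
  rw [h1, hb]

/-- the identity K1 of a commutative automorphic loop -/
theorem K1c (h : AL G L J e) (hc : ∀ q, J * L q * J = L (J q)) (a b : Q) :
    L b * thc L a b = (L (J a))⁻¹ * L b * L (J a) := by
  have hJJ := h.JJ1
  obtain ⟨n, hnG, hne, hnb, hM⟩ := h.Mm_n hc a b
  obtain ⟨n', hnG', hne', hna', hM'⟩ := h.Mm_n hc b a
  rw [h.Mm_symm hc b a] at hM'
  have hnJ := h.comJ n hnG hne
  have hnJ' := h.comJ n' hnG' hne'
  have hnL : n * L (J b) = L (J b) * n := h.comL hnG hne (h.fixJ' hnG hne hnb)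
  have hnL' : n' * L a = L a * n' := h.comL hnG' hne' hna'
  set M := Mm L J a b with hMdef
  set g := J * (L a)⁻¹ * L (J b) with hg
  have hgJ : g * J ∈ G := by
    have h1 : g * J = J * ((L a)⁻¹ * L (J b)) * J := by rw [hg]; group
    rw [h1]
    exact h.JG _ (G.mul_mem (G.inv_mem (h.memL _)) (h.memL _))
  have hga : g a = b := by
    rw [hg]
    simp only [Perm.mul_apply]
    rw [h.comm_mul hc (J b) a, show (L a)⁻¹ (L a (J b)) = J b from (L a).symm_apply_apply _,
      h.JJ]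
  have hgb : g b = a := by
    rw [hg]
    simp only [Perm.mul_apply]
    rw [h.LJ', h.cinv, h.JJ]
  have hgM : g * M = M * g := by
    have h1 := h.Mm_conj hc (g := g) (Or.inr hgJ) a b
    rw [hga, hgb, h.Mm_symm hc b a] at h1
    calc g * M = (g * M * g⁻¹) * g := by group
      _ = M * g := by rw [h1]
  have hJi : J⁻¹ = J := h.Jinv
  have e1 : M * g = L b * n' * L (J b) := by
    rw [hM', hg]
    calc L b * L a * J * n' * (J * (L a)⁻¹ * L (J b)) =
        L b * L a * (J * n') * J * (L a)⁻¹ * L (J b) := by group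
      _ = L b * L a * (n' * J) * J * (L a)⁻¹ * L (J b) := by rw [hnJ']
      _ = L b * L a * n' * (J * J) * (L a)⁻¹ * L (J b) := by group
      _ = L b * (L a * n') * (L a)⁻¹ * L (J b) := by rw [hJJ]; group
      _ = L b * (n' * L a) * (L a)⁻¹ * L (J b) := by rw [hnL']
      _ = L b * n' * L (J b) := by group
  have e2 : g * M = (L (J a))⁻¹ * L b * L (J a) * n * L (J b) := by
    have a1 : J * (L a)⁻¹ * J = (L (J a))⁻¹ := by
      rw [← hc a, mul_inv_rev, mul_inv_rev, hJi]; group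
    have a2 : J * L (J b) * J = L b := by rw [hc, h.JJ]
    have a3 := hc a
    have a4 := hc b
    rw [hM, hg]
    calc J * (L a)⁻¹ * L (J b) * (L a * L b * J * n) =
        J * (L a)⁻¹ * 1 * L (J b) * 1 * L a * 1 * L b * J * n := by group
      _ = J * (L a)⁻¹ * (J * J) * L (J b) * (J * J) * L a * (J * J) * L b * J * n := by rw [hJJ]
      _ = (J * (L a)⁻¹ * J) * (J * L (J b) * J) * (J * L a * J) * (J * L b * J) * n := by group
      _ = (L (J a))⁻¹ * L b * L (J a) * (L (J b) * n) := by rw [a1, a2, a3, a4]; group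
      _ = (L (J a))⁻¹ * L b * L (J a) * (n * L (J b)) := by rw [hnL]
      _ = (L (J a))⁻¹ * L b * L (J a) * n * L (J b) := by group
  have e3 : L b * n' = (L (J a))⁻¹ * L b * L (J a) * n := by
    rw [e2, e1] at hgM
    exact (mul_right_cancel hgM).symm
  have e4 : L a * L b * n = L b * L a * n' := by
    have h1 : L a * L b * J * n = L b * L a * J * n' := by rw [← hM, ← hM']
    have h2 : L a * L b * n * J = L b * L a * n' * J := by
      calc L a * L b * n * J = L a * L b * (n * J) := by group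
        _ = L a * L b * J * n := by rw [hnJ]; group
        _ = L b * L a * J * n' := h1
        _ = L b * L a * (J * n') := by group
        _ = L b * L a * n' * J := by rw [← hnJ']; group
    exact mul_right_cancel h2
  have e5 : n' = (L a)⁻¹ * (L b)⁻¹ * L a * L b * n := by
    calc n' = (L a)⁻¹ * (L b)⁻¹ * (L b * L a * n') := by group
      _ = (L a)⁻¹ * (L b)⁻¹ * (L a * L b * n) := by rw [e4]
      _ = (L a)⁻¹ * (L b)⁻¹ * L a * L b * n := by group
  rw [e5] at e3
  unfold thc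
  have e6 : L b * ((L a)⁻¹ * (L b)⁻¹ * L a * L b) * n = (L (J a))⁻¹ * L b * L (J a) * n := by
    rw [← e3]; group
  exact mul_right_cancel e6

end AL

end ALoop
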